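import Pool.Agent.TH82.BS.Basic

/-!
The symplectic-type case of the linear theorem (`sympl_lemma`), a step of the bounded subset
theorem.
-/

namespace Pool.Agent.TH527.J82

open scoped commutatorElement

universe u

section comm

variable {G : Type u} [Group G]

theorem cen_comm {z : G} (hz : z ∈ Subgroup.center G) (g : G) : g * z = z * g :=
  Subgroup.mem_center_iff.mp hz g

theorem cmul_left {a b c : G} (h : ⁅b, c⁆ ∈ Subgroup.center G) :
    ⁅a * b, c⁆ = ⁅a, c⁆ * ⁅b, c⁆ := by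
  have h1 : ⁅a * b, c⁆ = (a * ⁅b, c⁆) * a⁻¹ * ⁅a, c⁆ := by
    simp only [commutatorElement_def]; group
  rw [h1, cen_comm h a, mul_inv_cancel_right, cen_comm h]

theorem cmul_right {a b c : G} (h : ⁅a, c⁆ ∈ Subgroup.center G) :
    ⁅a, b * c⁆ = ⁅a, b⁆ * ⁅a, c⁆ := by
  have h1 : ⁅a, b * c⁆ = ⁅a, b⁆ * ((b * ⁅a, c⁆) * b⁻¹) := by
    simp only [commutatorElement_def]; group
  rw [h1, cen_comm h b, mul_inv_cancel_right]

theorem cpow_left {a c : G} (h : ⁅a, c⁆ ∈ Subgroup.center G) (n : ℕ) :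
    ⁅a ^ n, c⁆ = ⁅a, c⁆ ^ n := by
  induction n with
  | zero => simp
  | succ n ih => rw [pow_succ, cmul_left h, ih, pow_succ]

theorem mul_pow_two {a b : G} (h : ⁅b, a⁆ ∈ Subgroup.center G) (n : ℕ) :
    (a * b) ^ n = a ^ n * b ^ n * ⁅b, a⁆ ^ (n.choose 2) := by
  induction n with
  | zero => simp
  | succ n ih =>
    have h1 : b ^ n * a = ⁅b, a⁆ ^ n * (a * b ^ n) := by
      rw [← cpow_left h]
      simp only [commutatorElement_def]; group
    have hz : ∀ k : ℕ, ⁅b, a⁆ ^ k ∈ Subgroup.center G := fun k => Subgroup.pow_mem _ h k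
    calc (a * b) ^ (n + 1) = (a ^ n * b ^ n * ⁅b, a⁆ ^ (n.choose 2)) * (a * b) := by
          rw [pow_succ, ih]
      _ = a ^ n * (b ^ n * a) * b * ⁅b, a⁆ ^ (n.choose 2) := by
          rw [mul_assoc (a ^ n * b ^ n), ← cen_comm (hz _) (a * b)]
          simp only [mul_assoc]
      _ = (a ^ n * ⁅b, a⁆ ^ n) * a * b ^ n * b * ⁅b, a⁆ ^ (n.choose 2) := by
          rw [h1]; simp only [mul_assoc]
      _ = ⁅b, a⁆ ^ n * (a ^ (n + 1) * b ^ (n + 1)) * ⁅b, a⁆ ^ (n.choose 2) := by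
          rw [cen_comm (hz _) (a ^ n)]
          simp only [mul_assoc, pow_succ]
      _ = a ^ (n + 1) * b ^ (n + 1) * (⁅b, a⁆ ^ n * ⁅b, a⁆ ^ (n.choose 2)) := by
          rw [← cen_comm (hz _) (a ^ (n + 1) * b ^ (n + 1))]
          simp only [mul_assoc]
      _ = a ^ (n + 1) * b ^ (n + 1) * ⁅b, a⁆ ^ ((n + 1).choose 2) := by
          rw [← pow_add, Nat.choose_succ_succ, Nat.choose_one_right]

/-- If `g, h` act trivially on `M/B` and on `B/A`, with `[B,B] ≤ A`, then `[g,h]` acts trivially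
on `M/A`. -/
theorem comm_triv {M B A : Subgroup G} [M.Normal]
    (hBA : ∀ a ∈ B, ∀ b ∈ B, a * b * a⁻¹ * b⁻¹ ∈ A) {g h : G}
    (hg1 : ∀ m ∈ M, g * m * g⁻¹ * m⁻¹ ∈ B) (hh1 : ∀ m ∈ M, h * m * h⁻¹ * m⁻¹ ∈ B)
    (hg2 : ∀ m ∈ B, g * m * g⁻¹ * m⁻¹ ∈ A) (hh2 : ∀ m ∈ B, h * m * h⁻¹ * m⁻¹ ∈ A) :
    ∀ m ∈ M, ⁅g, h⁆ * m * ⁅g, h⁆⁻¹ * m⁻¹ ∈ A := by
  have key : ∀ m ∈ M, (g * h * m * h⁻¹ * g⁻¹) * (h * g * m * g⁻¹ * h⁻¹)⁻¹ ∈ A := by
    intro m hm
    have e1 := hh1 m hm
    have e2 := hg1 m hm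
    have e3 := hg2 _ e1
    have e4 := hh2 _ e2
    have e5 := hBA _ e1 _ e2
    have : (g * h * m * h⁻¹ * g⁻¹) * (h * g * m * g⁻¹ * h⁻¹)⁻¹ =
        (g * (h * m * h⁻¹ * m⁻¹) * g⁻¹ * (h * m * h⁻¹ * m⁻¹)⁻¹) *
        ((h * m * h⁻¹ * m⁻¹) * (g * m * g⁻¹ * m⁻¹) * (h * m * h⁻¹ * m⁻¹)⁻¹ *
          (g * m * g⁻¹ * m⁻¹)⁻¹) *
        (h * (g * m * g⁻¹ * m⁻¹) * h⁻¹ * (g * m * g⁻¹ * m⁻¹)⁻¹)⁻¹ := by group
    rw [this]
    exact A.mul_mem (A.mul_mem e3 e5) (A.inv_mem e4)
  intro m hm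
  have hm' : (h * g)⁻¹ * m * (h * g) ∈ M := by
    have := (inferInstance : M.Normal).conj_mem m hm (h * g)⁻¹
    rwa [inv_inv] at this
  have := key _ hm'
  have e : ⁅g, h⁆ * m * ⁅g, h⁆⁻¹ * m⁻¹ =
      (g * h * ((h * g)⁻¹ * m * (h * g)) * h⁻¹ * g⁻¹) *
      (h * g * ((h * g)⁻¹ * m * (h * g)) * g⁻¹ * h⁻¹)⁻¹ := by
    simp only [commutatorElement_def]; group
  rw [e]
  exact this

end comm

section weight

variable {G : Type u} [Group G] {V : Type u} [AddCommGroup V] [DistribMulAction G V]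

theorem weight_lemma (hZfree : ∀ z ∈ Subgroup.center G, ∀ v : V, v ≠ 0 → z • v = v → z = 1)
    (D : Subgroup G) {ι : Type*} (s : Finset ι) (γ : G → G)
    (hγ : ∀ d ∈ D, γ d ∈ Subgroup.center G) (c : ι → G → G) :
    ∀ (w : V) (W : ι → V), (∀ i ∈ s, ∀ d ∈ D, c i d ∈ Subgroup.center G) →
      (∀ d ∈ D, d • w = γ d • w) →
      (∀ i ∈ s, ∀ d ∈ D, d • W i = c i d • W i) → (∀ i ∈ s, ∃ d ∈ D, c i d ≠ γ d) →
      w = ∑ i ∈ s, W i → w = 0 := by
  classical
  induction s using Finset.induction_on with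
  | empty => intro w W _ _ _ _ h; simpa using h
  | insert i0 s hi ih =>
    intro w W hc hw hW hne hsum
    by_contra hw0
    obtain ⟨d, hd, hdne⟩ := hne i0 (Finset.mem_insert_self i0 s)
    have hi0 : i0 ∈ insert i0 s := Finset.mem_insert_self i0 s
    have hmem : ∀ i ∈ s, i ∈ insert i0 s := fun i h => Finset.mem_insert_of_mem h
    have hcomm : ∀ (z e : G), z ∈ Subgroup.center G → ∀ v : V, e • z • v = z • e • v := by
      intro z e hz v
      rw [smul_smul, smul_smul, cen_comm hz]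
    have h0 := ih (γ d • w - c i0 d • w) (fun i => c i d • W i - c i0 d • W i)
      (fun i hi => hc i (hmem i hi))
      (by
        intro e he
        rw [smul_sub, smul_sub, hcomm _ _ (hγ d hd), hcomm _ _ (hc i0 hi0 d hd), hw e he,
          hcomm (γ d) (γ e) (hγ d hd), hcomm (c i0 d) (γ e) (hc i0 hi0 d hd)])
      (by
        intro i hi e he
        rw [smul_sub, smul_sub, hcomm _ _ (hc i (hmem i hi) d hd), hcomm _ _ (hc i0 hi0 d hd),
          hW i (hmem i hi) e he,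
          hcomm (c i d) (c i e) (hc i (hmem i hi) d hd), hcomm (c i0 d) (c i e) (hc i0 hi0 d hd)])
      (fun i hi => hne i (hmem i hi))
      (by
        rw [Finset.sum_insert hi] at hsum
        rw [← hw d hd]
        conv_lhs => rw [hsum]
        rw [smul_add, smul_add, hW i0 hi0 d hd, Finset.smul_sum, Finset.smul_sum,
          Finset.sum_sub_distrib, Finset.sum_congr rfl (fun i hi => hW i (hmem i hi) d hd)]
        abel)
    have h1 : γ d • w = c i0 d • w := sub_eq_zero.mp h0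
    have h2 : ((c i0 d)⁻¹ * γ d) • w = w := by rw [mul_smul, h1, inv_smul_smul]
    have h3 := hZfree _ (Subgroup.mul_mem _ (Subgroup.inv_mem _ (hc i0 hi0 d hd)) (hγ d hd)) w hw0 h2
    exact hdne (inv_mul_eq_one.mp h3)

end weight

section key

variable {G : Type u} [Group G] {V : Type u} [AddCommGroup V] [DistribMulAction G V]

theorem sum_pow_smul_eq_zero
    (hZfree : ∀ z ∈ Subgroup.center G, ∀ v : V, v ≠ 0 → z • v = v → z = 1)
    {r : ℕ} {z : G} (hz : z ∈ Subgroup.center G) (hzr : z ^ r = 1) (hz1 : z ≠ 1) (v : V) :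
    ∑ j ∈ Finset.range r, z ^ j • v = 0 := by
  by_contra h
  apply hz1
  apply hZfree z hz _ h
  rw [Finset.smul_sum]
  have h1 := Finset.sum_range_succ (fun j => z ^ j • v) r
  have h2 := Finset.sum_range_succ' (fun j => z ^ j • v) r
  rw [h1] at h2
  simp only [hzr, one_smul, pow_zero] at h2
  have h3 := add_right_cancel h2
  rw [h3]
  apply Finset.sum_congr rfl
  intro i _
  rw [smul_smul, pow_succ']

theorem pow_sum_fixed {r : ℕ} {h : G} (hr : h ^ r = 1) (v : V) :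
    h • (∑ j ∈ Finset.range r, h ^ j • v) = ∑ j ∈ Finset.range r, h ^ j • v := by
  rw [Finset.smul_sum]
  have h1 := Finset.sum_range_succ (fun j => h ^ j • v) r
  have h2 := Finset.sum_range_succ' (fun j => h ^ j • v) r
  rw [h1] at h2
  simp only [hr, one_smul, pow_zero] at h2
  have h3 := add_right_cancel h2
  rw [h3]
  apply Finset.sum_congr rfl
  intro i _
  rw [smul_smul, pow_succ']

theorem not_dvd_card [Finite V]
    (hZfree : ∀ z ∈ Subgroup.center G, ∀ v : V, v ≠ 0 → z • v = v → z = 1)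
    {r : ℕ} [Fact r.Prime] {z : G} (hz : z ∈ Subgroup.center G) (hzr : z ^ r = 1) (hz1 : z ≠ 1) :
    ¬ r ∣ Nat.card V := by
  have hp : IsPGroup r (Subgroup.zpowers z) := by
    rintro ⟨x, hx⟩
    obtain ⟨k, rfl⟩ := Subgroup.mem_zpowers_iff.mp hx
    refine ⟨1, ?_⟩
    ext
    simp only [pow_one, SubmonoidClass.mk_pow, OneMemClass.coe_one]
    rw [← zpow_natCast, ← zpow_mul, mul_comm, zpow_mul, zpow_natCast, hzr, one_zpow]
  have h1 := hp.card_modEq_card_fixedPoints V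
  have h2 : MulAction.fixedPoints (Subgroup.zpowers z) V = {0} := by
    ext v
    simp only [MulAction.mem_fixedPoints, Set.mem_singleton_iff]
    constructor
    · intro h
      by_contra hv
      exact hz1 (hZfree z hz v hv (h ⟨z, Subgroup.mem_zpowers z⟩))
    · rintro rfl g
      exact smul_zero (g : G)
  rw [h2] at h1
  intro h3
  have h4 : Nat.card ({0} : Set V) = 1 := by simp
  rw [h4] at h1
  have h5 := (Nat.modEq_zero_iff_dvd.mpr h3).symm.trans h1
  have h6 : r ∣ 1 := (Nat.modEq_zero_iff_dvd).mp h5.symm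
  exact (Fact.out : r.Prime).one_lt.ne' (Nat.dvd_one.mp h6)

theorem nsmul_ne_zero_of [Finite V] {r : ℕ} [Fact r.Prime] (h : ¬ r ∣ Nat.card V) {v : V}
    (hv : v ≠ 0) : r • v ≠ 0 := by
  intro h0
  have h1 := addOrderOf_dvd_of_nsmul_eq_zero h0
  rcases (Nat.dvd_prime (Fact.out : r.Prime)).mp h1 with h2 | h2
  · exact hv (AddMonoid.addOrderOf_eq_one_iff.mp h2)
  · apply h
    rw [← h2]
    exact addOrderOf_dvd_natCard v

/-- Key lemma: by maximality of the stabilizer of `v1` in `M`, an element `m` of `M` commuting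
with `D` whose `r`-th power is an `r`-th power of a central element lies in `D Z`. -/
theorem key_lemma [Finite G] [Finite V]
    (hZfree : ∀ z ∈ Subgroup.center G, ∀ v : V, v ≠ 0 → z • v = v → z = 1)
    {r : ℕ} [Fact r.Prime] {ζ : G} (hζ : ζ ∈ Subgroup.center G) (hζr : ζ ^ r = 1) (hζ1 : ζ ≠ 1)
    {M : Subgroup G} (hZM : Subgroup.center G ≤ M) {v1 : V} (hv1 : v1 ≠ 0)
    (hmax : ∀ u : V, u ≠ 0 → Nat.card (M ⊓ MulAction.stabilizer G u : Subgroup G) ≤
      Nat.card (M ⊓ MulAction.stabilizer G v1 : Subgroup G))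
    {m : G} (hm : m ∈ M) (hmD : ∀ d ∈ M ⊓ MulAction.stabilizer G v1, m * d = d * m)
    {z0 : G} (hz0 : z0 ∈ Subgroup.center G) (hmr : m ^ r = z0 ^ r) :
    m ∈ (M ⊓ MulAction.stabilizer G v1) ⊔ Subgroup.center G := by
  set D := M ⊓ MulAction.stabilizer G v1 with hD
  set m1 := m * z0⁻¹ with hm1
  have hz0' : z0⁻¹ ∈ Subgroup.center G := Subgroup.inv_mem _ hz0
  have hcm : Commute m z0⁻¹ := cen_comm hz0' m
  have hm1r : m1 ^ r = 1 := by
    rw [hm1, hcm.mul_pow, hmr, inv_pow, mul_inv_cancel]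
  have hζp : ∀ j : ℕ, ζ ^ j ∈ Subgroup.center G := fun j => Subgroup.pow_mem _ hζ j
  have hhr : ∀ j : ℕ, (ζ ^ j * m1) ^ r = 1 := by
    intro j
    have : Commute (ζ ^ j) m1 := (cen_comm (hζp j) m1).symm
    rw [this.mul_pow, hm1r, mul_one, ← pow_mul, mul_comm, pow_mul, hζr, one_pow]
  have hhD : ∀ j : ℕ, ∀ d ∈ D, Commute d (ζ ^ j * m1) := by
    intro j d hd
    have h1 : Commute d (ζ ^ j) := cen_comm (hζp j) d
    have h2 : Commute d m1 := by
      have h3 : Commute d m := (hmD d hd).symm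
      have h4 : Commute d z0⁻¹ := cen_comm hz0' d
      exact h3.mul_right h4
    exact h1.mul_right h2
  set P : ℕ → V := fun j => ∑ i ∈ Finset.range r, (ζ ^ j * m1) ^ i • v1 with hP
  have hsum : ∑ j ∈ Finset.range r, P j = r • v1 := by
    rw [hP]
    simp only
    rw [Finset.sum_comm]
    have hrpos : 0 < r := (Fact.out : r.Prime).pos
    have h1 : ∀ i ∈ Finset.range r, i ≠ 0 →
        ∑ j ∈ Finset.range r, (ζ ^ j * m1) ^ i • v1 = 0 := by
      intro i hi hi0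
      have h2 : ∀ j ∈ Finset.range r, (ζ ^ j * m1) ^ i • v1 = (ζ ^ i) ^ j • (m1 ^ i • v1) := by
        intro j _
        have : Commute (ζ ^ j) m1 := (cen_comm (hζp j) m1).symm
        rw [this.mul_pow, mul_smul, ← pow_mul, ← pow_mul, mul_comm j i]
      rw [Finset.sum_congr rfl h2]
      apply sum_pow_smul_eq_zero hZfree (hζp i)
      · rw [← pow_mul, mul_comm, pow_mul, hζr, one_pow]
      · intro h3
        have ho : orderOf ζ = r := orderOf_eq_prime hζr hζ1
        have h4 := orderOf_dvd_of_pow_eq_one h3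
        rw [ho] at h4
        have h5 := Nat.le_of_dvd (Nat.pos_of_ne_zero hi0) h4
        exact absurd (Finset.mem_range.mp hi) (not_lt.mpr h5)
    rw [Finset.sum_eq_single 0 h1 (by
      intro h; exact absurd (Finset.mem_range.mpr hrpos) h)]
    simp
  have hne : r • v1 ≠ 0 := nsmul_ne_zero_of (not_dvd_card hZfree hζ hζr hζ1) hv1
  obtain ⟨j, hj⟩ : ∃ j, P j ≠ 0 := by
    by_contra hcon
    push Not at hcon
    apply hne
    rw [← hsum]
    exact Finset.sum_eq_zero (fun j _ => hcon j)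
  have hm1M : m1 ∈ M := M.mul_mem hm (hZM hz0')
  have hle : D ≤ M ⊓ MulAction.stabilizer G (P j) := by
    intro d hd
    refine ⟨hd.1, ?_⟩
    change d • (∑ i ∈ Finset.range r, (ζ ^ j * m1) ^ i • v1) =
      ∑ i ∈ Finset.range r, (ζ ^ j * m1) ^ i • v1
    rw [Finset.smul_sum]
    apply Finset.sum_congr rfl
    intro i _
    have h1 : d • v1 = v1 := MulAction.mem_stabilizer_iff.mp hd.2
    rw [smul_smul, ((hhD j d hd).pow_right i).eq, mul_smul, h1]
  have hDeq := Subgroup.eq_of_le_of_card_ge hle (hmax _ hj)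
  have hhj : ζ ^ j * m1 ∈ D := by
    rw [hDeq]
    exact ⟨M.mul_mem (hZM (hζp j)) hm1M, pow_sum_fixed (hhr j) v1⟩
  have hfin : m = (ζ ^ j * m1) * (z0 * (ζ ^ j)⁻¹) := by
    rw [hm1]
    have h1 := cen_comm (hζp j) (m * z0⁻¹)
    rw [← h1]
    have h2 : ζ ^ j * (z0 * (ζ ^ j)⁻¹) = z0 := by
      rw [cen_comm hz0 (ζ ^ j)⁻¹ |>.symm, mul_inv_cancel_left]
    rw [mul_assoc (m * z0⁻¹), h2, inv_mul_cancel_right]
  rw [hfin]
  exact Subgroup.mul_mem_sup hhj (Subgroup.mul_mem _ hz0 (Subgroup.inv_mem _ (hζp j)))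

end key

section two

open Pool.Agent.TH82.BS

variable {T : Type u} [Group T] [IsSimpleGroup T] {G : Type u} [Group G]

/-- The kernel of an action on at most three points maps onto `T`. -/
theorem perm3 (hT : ¬ ∀ a b : T, a * b = b * a) {φ : G →* T} {J : Subgroup G}
    (hJ : J.map φ = ⊤) (α : Type*) [Finite α] (hα : Nat.card α ≤ 3) (act : J → α → α)
    (h1 : ∀ x, act 1 x = x) (hmul : ∀ g h x, act (g * h) x = act g (act h x)) :
    ∃ R1 ≤ J, R1.map φ = ⊤ ∧ ∀ (g : G) (hg : g ∈ J), g ∈ R1 → ∀ x, act ⟨g, hg⟩ x = x := by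
  let _ : MulAction J α := { smul := act, one_smul := h1, mul_smul := hmul }
  have := perm_solvable_of_card_le_three α hα
  refine ⟨(MulAction.toPermHom J α).ker.map J.subtype, ?_,
    map_ker_eq_top_of_solvable hT hJ (MulAction.toPermHom J α), ?_⟩
  · rintro _ ⟨x, _, rfl⟩
    exact x.2
  · rintro g hg ⟨x, hx, rfl⟩ a
    have h2 : MulAction.toPermHom J α x = 1 := hx
    have h3 := congrArg (fun e : Equiv.Perm α => e a) h2
    exact h3

/-- A group `R0` acting by conjugation on `C`, normalising `A`, where `C` is the union of at most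
four cosets of `A`: the subgroup acting trivially on `C/A` maps onto `T`. -/
theorem four_cosets (hT : ¬ ∀ a b : T, a * b = b * a) {φ : G →* T} {R0 : Subgroup G}
    (hR0 : R0.map φ = ⊤) {C A : Subgroup G}
    (hRC : ∀ g ∈ R0, ∀ c ∈ C, g * c * g⁻¹ ∈ C) (hRA : ∀ g ∈ R0, ∀ c ∈ A, g * c * g⁻¹ ∈ A)
    (hnorm : ∀ c ∈ C, ∀ a ∈ A, c * a * c⁻¹ ∈ A) (a b : G)
    (hcov : ∀ c ∈ C, c ∈ A ∨ a⁻¹ * c ∈ A ∨ b⁻¹ * c ∈ A ∨ (a * b)⁻¹ * c ∈ A) :
    ∃ R1 ≤ R0, R1.map φ = ⊤ ∧ ∀ g ∈ R1, ∀ c ∈ C, g * c * g⁻¹ * c⁻¹ ∈ A := by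
  classical
  let α : Type u := {q : G ⧸ A // ((1 : G) : G ⧸ A) ≠ q ∧ ∃ c ∈ C, ((c : G) : G ⧸ A) = q}
  have hsub : ({q : G ⧸ A | ((1 : G) : G ⧸ A) ≠ q ∧ ∃ c ∈ C, ((c : G) : G ⧸ A) = q} : Set (G ⧸ A)) ⊆
      (({(a : G ⧸ A), (b : G ⧸ A), ((a * b : G) : G ⧸ A)} : Finset (G ⧸ A)) : Set (G ⧸ A)) := by
    rintro q ⟨hq, c, hc, rfl⟩
    rcases hcov c hc with h | h | h | h
    · exfalso
      apply hq
      rw [QuotientGroup.eq]
      simpa using h
    · have : ((a : G) : G ⧸ A) = c := QuotientGroup.eq.mpr h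
      simp [this]
    · have : ((b : G) : G ⧸ A) = c := QuotientGroup.eq.mpr h
      simp [this]
    · have : ((a * b : G) : G ⧸ A) = c := QuotientGroup.eq.mpr h
      simp [this]
  have hfin : Finite α := (Set.Finite.subset (Finset.finite_toSet _) hsub)
  have hcard : Nat.card α ≤ 3 := by
    have h1 : Nat.card α = Set.ncard ({q : G ⧸ A | ((1 : G) : G ⧸ A) ≠ q ∧
        ∃ c ∈ C, ((c : G) : G ⧸ A) = q} : Set (G ⧸ A)) := rfl
    rw [h1]
    refine (Set.ncard_le_ncard hsub (Finset.finite_toSet _)).trans ?_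
    rw [Set.ncard_coe_finset]
    exact Finset.card_le_three
  let act0 : R0 → G ⧸ A → G ⧸ A := fun g => Quotient.map' (fun x => (g : G) * x * (g : G)⁻¹) (by
    intro x y hxy
    rw [QuotientGroup.leftRel_apply] at hxy ⊢
    have := hRA g g.2 _ hxy
    convert this using 1
    group)
  have hact0 : ∀ (g : R0) (c : G), act0 g ((c : G) : G ⧸ A) =
      (((g : G) * c * (g : G)⁻¹ : G) : G ⧸ A) := fun g c => rfl
  have hact1 : ∀ (g : R0) (q : α), ((1 : G) : G ⧸ A) ≠ act0 g q.1 ∧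
      ∃ c ∈ C, ((c : G) : G ⧸ A) = act0 g q.1 := by
    rintro g ⟨_, hq, c, hc, rfl⟩
    refine ⟨?_, (g : G) * c * (g : G)⁻¹, hRC g g.2 c hc, rfl⟩
    rw [hact0]
    intro h
    apply hq
    rw [QuotientGroup.eq] at h ⊢
    have h2 := hRA (g : G)⁻¹ (R0.inv_mem g.2) _ h
    convert h2 using 1
    group
  obtain ⟨R1, hR1, hR1T, hR1a⟩ := perm3 hT hR0 α hcard (fun g q => ⟨act0 g q.1, hact1 g q⟩)
    (by
      rintro ⟨_, hq, c, hc, rfl⟩
      apply Subtype.ext
      simp only [hact0]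
      simp)
    (by
      rintro g h ⟨_, hq, c, hc, rfl⟩
      apply Subtype.ext
      simp only [hact0]
      congr 1
      simp only [Subgroup.coe_mul]
      group)
  refine ⟨R1, hR1, hR1T, ?_⟩
  intro g hg c hc
  by_cases hcA : c ∈ A
  · exact A.mul_mem (hRA g (hR1 hg) c hcA) (A.inv_mem hcA)
  · have hq : ((1 : G) : G ⧸ A) ≠ ((c : G) : G ⧸ A) := by
      intro h
      apply hcA
      rw [QuotientGroup.eq] at h
      simpa using h
    have h1 := hR1a g (hR1 hg) hg ⟨((c : G) : G ⧸ A), hq, c, hc, rfl⟩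
    have h2 : (((g : G) * c * (g : G)⁻¹ : G) : G ⧸ A) = ((c : G) : G ⧸ A) :=
      congrArg Subtype.val h1
    have h3 := QuotientGroup.eq.mp h2.symm
    have h4 := hnorm c hc _ h3
    convert h4 using 1
    group

end two

section cover

variable {G : Type u} [Group G]

/-- `x` is the square of a central element. -/
def Sq (x : G) : Prop := ∃ z ∈ Subgroup.center G, x = z ^ 2

theorem nsq_mul (hcyc : IsCyclic (Subgroup.center G)) {x y : G} (hx : x ∈ Subgroup.center G)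
    (hy : y ∈ Subgroup.center G) (hx2 : ¬ Sq x) (hy2 : ¬ Sq y) : Sq (x * y) := by
  obtain ⟨⟨g, hg⟩, hgen⟩ := hcyc
  have hpow : ∀ k : ℤ, g ^ k ∈ Subgroup.center G := fun k => Subgroup.zpow_mem _ hg k
  have hform : ∀ x ∈ Subgroup.center G, ¬ Sq x → ∃ l : ℤ, x = g ^ (2 * l + 1) := by
    intro x hx hx2
    obtain ⟨k, hk⟩ := Subgroup.mem_zpowers_iff.mp (hgen ⟨x, hx⟩)
    have hk' : g ^ k = x := by
      have := congrArg Subtype.val hk
      simpa using this
    rcases Int.even_or_odd' k with ⟨l, hl | hl⟩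
    · exfalso
      apply hx2
      refine ⟨g ^ l, hpow l, ?_⟩
      rw [← hk', hl, mul_comm, zpow_mul]
      norm_cast
    · exact ⟨l, by rw [← hk', hl]⟩
  obtain ⟨l, hl⟩ := hform x hx hx2
  obtain ⟨l', hl'⟩ := hform y hy hy2
  refine ⟨g ^ (l + l' + 1), hpow _, ?_⟩
  rw [hl, hl', ← zpow_add, ← zpow_natCast, ← zpow_mul]
  congr 1
  push_cast
  ring

theorem sq_mul {x y : G} (hx : Sq x) (hy : Sq y) : Sq (x * y) := by
  obtain ⟨z, hz, rfl⟩ := hx
  obtain ⟨w, hw, rfl⟩ := hy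
  refine ⟨z * w, Subgroup.mul_mem _ hz hw, ?_⟩
  have : Commute z w := cen_comm hw z
  rw [this.mul_pow]

theorem cover_two (hcyc : IsCyclic (Subgroup.center G)) {C A : Subgroup G}
    (hZA : Subgroup.center G ≤ A)
    (hCab : ∀ a ∈ C, ∀ b ∈ C, ⁅a, b⁆ ∈ Subgroup.center G)
    (hC2 : ∀ c ∈ C, c ^ 2 ∈ Subgroup.center G)
    (hkey : ∀ c ∈ C, Sq (c ^ 2) → c ∈ A) :
    ∃ a b : G, ∀ c ∈ C, c ∈ A ∨ a⁻¹ * c ∈ A ∨ b⁻¹ * c ∈ A ∨ (a * b)⁻¹ * c ∈ A := by
  have hns : ∀ a ∈ C, ∀ b ∈ C, a ∉ A → b ∉ A → a * b ∉ A → ¬ Sq ⁅b, a⁆ := by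
    intro a ha b hb haA hbA habA hsq
    apply habA
    apply hkey _ (C.mul_mem ha hb)
    rw [mul_pow_two (hCab b hb a ha)]
    have h1 : Sq (a ^ 2 * b ^ 2) :=
      nsq_mul hcyc (hC2 a ha) (hC2 b hb) (fun h => haA (hkey a ha h)) (fun h => hbA (hkey b hb h))
    have h2 : Nat.choose 2 2 = 1 := rfl
    rw [h2, pow_one]
    exact sq_mul h1 hsq
  have hswap : ∀ a ∈ C, ∀ c ∈ C, a⁻¹ * c ∉ A → a * c ∉ A := by
    intro a ha c _ h h2
    apply h
    have h3 : a⁻¹ * c = (a ^ 2)⁻¹ * (a * c) := by group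
    rw [h3]
    exact A.mul_mem (A.inv_mem (hZA (hC2 a ha))) h2
  by_cases h0 : ∀ c ∈ C, c ∈ A
  · exact ⟨1, 1, fun c hc => Or.inl (h0 c hc)⟩
  push Not at h0
  obtain ⟨a, ha, haA⟩ := h0
  by_cases h1 : ∀ c ∈ C, c ∈ A ∨ a⁻¹ * c ∈ A
  · exact ⟨a, 1, fun c hc => (h1 c hc).elim Or.inl (fun h => Or.inr (Or.inl h))⟩
  push Not at h1
  obtain ⟨b, hb, hbA, habA⟩ := h1
  refine ⟨a, b, ?_⟩
  by_contra hcon
  push Not at hcon
  obtain ⟨c, hc, hcA, hacA, hbcA, habcA⟩ := hcon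
  have k1 := hns a ha b hb haA hbA (hswap a ha b hb habA)
  have k2 := hns a ha c hc haA hcA (hswap a ha c hc hacA)
  have k3 := hns a ha (b * c) (C.mul_mem hb hc) haA (hswap b hb c hc hbcA) (by
    rw [← mul_assoc]
    exact hswap (a * b) (C.mul_mem ha hb) c hc habcA)
  apply k3
  rw [cmul_left (hCab c hc a ha)]
  exact nsq_mul hcyc (hCab b hb a ha) (hCab c hc a ha) k1 k2

end cover

section cent

open Pool.Agent.TH82.BS

variable {T : Type u} [Group T] [IsSimpleGroup T] {G : Type u} [Group G]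
  {V : Type u} [AddCommGroup V] [DistribMulAction G V]

/-- The elements of `R` acting trivially on `M/A`. -/
def Tr (R M A : Subgroup G) [M.Normal] (hRA : ∀ g ∈ R, ∀ a ∈ A, g * a * g⁻¹ ∈ A) : Subgroup G where
  carrier := {g | g ∈ R ∧ ∀ m ∈ M, g * m * g⁻¹ * m⁻¹ ∈ A}
  one_mem' := ⟨R.one_mem, fun m _ => by simp⟩
  mul_mem' := by
    rintro g h ⟨hg, hg'⟩ ⟨hh, hh'⟩
    refine ⟨R.mul_mem hg hh, fun m hm => ?_⟩
    have e : g * h * m * (g * h)⁻¹ * m⁻¹ = (g * (h * m * h⁻¹ * m⁻¹) * g⁻¹) * (g * m * g⁻¹ * m⁻¹) := by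
      group
    rw [e]
    exact A.mul_mem (hRA g hg _ (hh' m hm)) (hg' m hm)
  inv_mem' := by
    rintro g ⟨hg, hg'⟩
    refine ⟨R.inv_mem hg, fun m hm => ?_⟩
    have hm' : g⁻¹ * m * g ∈ M := by
      have := (inferInstance : M.Normal).conj_mem m hm g⁻¹
      rwa [inv_inv] at this
    have h1 := A.inv_mem (hg' _ hm')
    convert h1 using 1
    group

theorem cent_step [Finite G] [Finite V] (hT : ¬ ∀ a b : T, a * b = b * a) (φ : G →* T)
    (hZcyc : IsCyclic (Subgroup.center G))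
    (hZfree : ∀ z ∈ Subgroup.center G, ∀ v : V, v ≠ 0 → z • v = v → z = 1)
    (M : Subgroup G) [M.Normal] (hZM : Subgroup.center G ≤ M)
    (hMab : ∀ a ∈ M, ∀ b ∈ M, a * b * a⁻¹ * b⁻¹ ∈ Subgroup.center G)
    (hC : ∀ g : G, (∀ m ∈ M, g * m * g⁻¹ * m⁻¹ ∈ Subgroup.center G) → φ g = 1)
    {r : ℕ} [Fact r.Prime] (hMr : ∀ m ∈ M, m ^ r ∈ Subgroup.center G)
    {ζ : G} (hζ : ζ ∈ Subgroup.center G) (hζr : ζ ^ r = 1) (hζ1 : ζ ≠ 1)
    {v1 : V} (hv1 : v1 ≠ 0)
    (hmax : ∀ u : V, u ≠ 0 → Nat.card (M ⊓ MulAction.stabilizer G u : Subgroup G) ≤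
      Nat.card (M ⊓ MulAction.stabilizer G v1 : Subgroup G))
    (hR : (MulAction.stabilizer G v1).map φ = ⊤) :
    ∀ g ∈ MulAction.stabilizer G v1,
      (∀ d ∈ M ⊓ MulAction.stabilizer G v1, g * d = d * g) → φ g = 1 := by
  have hkey := fun (m : G) (hm : m ∈ M)
    (hmD : ∀ d ∈ M ⊓ MulAction.stabilizer G v1, m * d = d * m) (z0 : G)
    (hz0 : z0 ∈ Subgroup.center G) (hmr : m ^ r = z0 ^ r) =>
    key_lemma hZfree hζ hζr hζ1 hZM hv1 hmax hm hmD hz0 hmr
  have hDZ1 : ∀ d ∈ M ⊓ MulAction.stabilizer G v1, d ∈ Subgroup.center G → d = 1 :=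
    fun d hd hdZ => hZfree d hdZ v1 hv1 hd.2
  set R := MulAction.stabilizer G v1 with hRdef
  set D := M ⊓ R with hD
  have hMab' : ∀ a ∈ M, ∀ b ∈ M, ⁅a, b⁆ ∈ Subgroup.center G := fun a ha b hb => by
    rw [commutatorElement_def]; exact hMab a ha b hb
  have hRD : ∀ g ∈ R, ∀ d ∈ D, g * d * g⁻¹ ∈ D := fun g hg d hd =>
    ⟨(inferInstance : M.Normal).conj_mem d hd.1 g, R.mul_mem (R.mul_mem hg hd.2) (R.inv_mem hg)⟩
  have hRD' : ∀ g ∈ R, ∀ d ∈ D, g⁻¹ * d * g ∈ D := fun g hg d hd => by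
    have := hRD g⁻¹ (R.inv_mem hg) d hd
    rwa [inv_inv] at this
  have hDab : ∀ a ∈ D, ∀ b ∈ D, a * b = b * a := by
    intro a ha b hb
    have h1 : ⁅a, b⁆ ∈ D := by
      rw [commutatorElement_def]
      exact D.mul_mem (D.mul_mem (D.mul_mem ha hb) (D.inv_mem ha)) (D.inv_mem hb)
    have h2 := hDZ1 _ h1 (hMab' a ha.1 b hb.1)
    exact commutatorElement_eq_one_iff_mul_comm.mp h2
  set A := D ⊔ Subgroup.center G with hA
  have hmemA : ∀ x, x ∈ A ↔ ∃ y ∈ D, ∃ z ∈ Subgroup.center G, y * z = x := fun x =>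
    Subgroup.mem_sup_of_normal_right
  have hRA : ∀ g ∈ R, ∀ a ∈ A, g * a * g⁻¹ ∈ A := by
    intro g hg a ha
    obtain ⟨y, hy, z, hz, rfl⟩ := (hmemA a).mp ha
    have e : g * (y * z) * g⁻¹ = (g * y * g⁻¹) * z := by
      rw [← mul_assoc, mul_assoc (g * y), ← cen_comm hz g⁻¹]
      simp only [mul_assoc]
    rw [e]
    exact Subgroup.mul_mem_sup (hRD g hg y hy) hz
  set C := M ⊓ Subgroup.centralizer (D : Set G) with hCdef
  have hmemC : ∀ x, x ∈ C ↔ x ∈ M ∧ ∀ d ∈ D, d * x = x * d := fun x => by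
    rw [hCdef, Subgroup.mem_inf, Subgroup.mem_centralizer_iff]
    rfl
  have hAC : A ≤ C := by
    intro x hx
    obtain ⟨y, hy, z, hz, rfl⟩ := (hmemA x).mp hx
    rw [hmemC]
    refine ⟨M.mul_mem hy.1 (hZM hz), fun d hd => ?_⟩
    rw [← mul_assoc, hDab d hd y hy, mul_assoc, cen_comm hz d, mul_assoc]
  have hAM : A ≤ M := fun x hx => ((hmemC x).mp (hAC hx)).1
  have hRC : ∀ g ∈ R, ∀ c ∈ C, g * c * g⁻¹ ∈ C := by
    intro g hg c hc
    rw [hmemC] at hc ⊢
    refine ⟨(inferInstance : M.Normal).conj_mem c hc.1 g, fun d hd => ?_⟩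
    have h1 := hc.2 _ (hRD' g hg d hd)
    have h2 : d * (g * c * g⁻¹) = g * ((g⁻¹ * d * g) * c) * g⁻¹ := by group
    rw [h2, h1]
    group
  set R0 := R ⊓ Subgroup.centralizer (D : Set G) with hR0def
  have hmemR0 : ∀ x, x ∈ R0 ↔ x ∈ R ∧ ∀ d ∈ D, d * x = x * d := fun x => by
    rw [hR0def, Subgroup.mem_inf, Subgroup.mem_centralizer_iff]
    rfl
  rcases map_eq_bot_or_top (A := R0) hR (by
    intro k hk a ha
    rw [hmemR0] at ha ⊢
    refine ⟨R.mul_mem (R.mul_mem hk ha.1) (R.inv_mem hk), fun d hd => ?_⟩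
    have h1 := ha.2 _ (hRD' k hk d hd)
    have h2 : d * (k * a * k⁻¹) = k * ((k⁻¹ * d * k) * a) * k⁻¹ := by group
    rw [h2, h1]
    group) with hbot | htop
  · intro g hg hgD
    have h1 : φ g ∈ R0.map φ := ⟨g, (hmemR0 g).mpr ⟨hg, fun d hd => (hgD d hd).symm⟩, rfl⟩
    rw [hbot] at h1
    exact Subgroup.mem_bot.mp h1
  exfalso
  have hMC : ∀ g ∈ R0, ∀ m ∈ M, g * m * g⁻¹ * m⁻¹ ∈ C := by
    intro g hg m hm
    rw [hmemR0] at hg
    rw [hmemC]
    have hgm := (inferInstance : M.Normal).conj_mem m hm g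
    refine ⟨M.mul_mem hgm (M.inv_mem hm), fun d hd => ?_⟩
    have hdM : d ∈ M := hd.1
    rw [← commutatorElement_eq_one_iff_mul_comm, cmul_right (hMab' d hdM _ (M.inv_mem hm))]
    have h1 : ⁅d, g * m * g⁻¹⁆ = ⁅d, m⁆ := by
      have h2 : ⁅d, g * m * g⁻¹⁆ = g * ⁅g⁻¹ * d * g, m⁆ * g⁻¹ := by
        simp only [commutatorElement_def]; group
      have h3 : g⁻¹ * d * g = d := by rw [mul_assoc, hg.2 d hd, inv_mul_cancel_left]
      rw [h2, h3, cen_comm (hMab' d hdM m hm) g, mul_inv_cancel_right]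
    rw [h1, ← cmul_right (hMab' d hdM _ (M.inv_mem hm)), mul_inv_cancel]
    simp
  have hcr : ∀ a ∈ M, ∀ b ∈ M, ⁅a, b⁆ ^ r = 1 := by
    intro a ha b hb
    rw [← cpow_left (hMab' a ha b hb)]
    exact commutatorElement_eq_one_iff_mul_comm.mpr (cen_comm (hMr a ha) b).symm
  obtain ⟨R1, hR1, hR1T, hR1A⟩ : ∃ R1 ≤ R0, R1.map φ = ⊤ ∧
      ∀ g ∈ R1, ∀ c ∈ C, g * c * g⁻¹ * c⁻¹ ∈ A := by
    rcases (Fact.out : r.Prime).eq_two_or_odd with h2 | hodd
    · subst h2
      obtain ⟨a, b, hab⟩ := cover_two (C := C) (A := A) hZcyc le_sup_right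
        (fun a ha b hb => hMab' a ((hmemC a).mp ha).1 b ((hmemC b).mp hb).1)
        (fun c hc => hMr c ((hmemC c).mp hc).1)
        (by
          rintro c hc ⟨z, hz, hcz⟩
          exact hkey c ((hmemC c).mp hc).1 (fun d hd => (((hmemC c).mp hc).2 d hd).symm) z hz hcz)
      refine four_cosets hT htop (C := C) (A := A)
        (fun g hg => hRC g ((hmemR0 g).mp hg).1) (fun g hg => hRA g ((hmemR0 g).mp hg).1) ?_ a b hab
      intro c hc x hx
      have h1 : c * x * c⁻¹ = ⁅c, x⁆ * x := by simp only [commutatorElement_def]; group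
      rw [h1]
      exact A.mul_mem (Subgroup.mem_sup_right
        (hMab' c ((hmemC c).mp hc).1 x (hAM hx))) hx
    · refine ⟨R0, le_rfl, htop, fun g hg c hc => ?_⟩
      have hcM := ((hmemC c).mp hc).1
      have hgc := (inferInstance : M.Normal).conj_mem c hcM g
      have ht := hMC g hg c hcM
      refine hkey _ ((hmemC _).mp ht).1 (fun d hd => (((hmemC _).mp ht).2 d hd).symm) 1
        (Subgroup.one_mem _) ?_
      rw [one_pow, mul_pow_two (hMab' _ (M.inv_mem hcM) _ hgc)]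
      have h1 : (g * c * g⁻¹) ^ r = c ^ r := by
        rw [conj_pow, cen_comm (hMr c hcM) g, mul_inv_cancel_right]
      have h3 : r ∣ r.choose 2 := by
        rw [Nat.choose_two_right]
        have h4 : 2 ∣ r - 1 := by omega
        obtain ⟨k, hk⟩ := h4
        rw [hk]
        exact ⟨k, by rw [mul_left_comm]; simp⟩
      obtain ⟨k, hk⟩ := h3
      rw [h1, inv_pow, mul_inv_cancel, one_mul, hk, pow_mul, hcr _ (M.inv_mem hcM) _ hgc, one_pow]
  -- now conclude
  have hAA : ∀ a ∈ C, ∀ b ∈ C, a * b * a⁻¹ * b⁻¹ ∈ A := fun a ha b hb =>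
    Subgroup.mem_sup_right (hMab a ((hmemC a).mp ha).1 b ((hmemC b).mp hb).1)
  have hK1 : ⁅R1, R1⁆ ≤ Tr R M A hRA := by
    rw [Subgroup.commutator_le]
    intro g hg h hh
    have hgR := ((hmemR0 g).mp (hR1 hg)).1
    have hhR := ((hmemR0 h).mp (hR1 hh)).1
    refine ⟨?_, comm_triv hAA (hMC g (hR1 hg)) (hMC h (hR1 hh)) (hR1A g hg) (hR1A h hh)⟩
    rw [commutatorElement_def]
    exact R.mul_mem (R.mul_mem (R.mul_mem hgR hhR) (R.inv_mem hgR)) (R.inv_mem hhR)
  have hK2 : ⁅R1, R1⁆ ≤ R0 := by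
    rw [Subgroup.commutator_le]
    intro g hg h hh
    rw [commutatorElement_def]
    exact hR1 (R1.mul_mem (R1.mul_mem (R1.mul_mem hg hh) (R1.inv_mem hg)) (R1.inv_mem hh))
  have hZR : ∀ g ∈ R, ∀ a ∈ Subgroup.center G, g * a * g⁻¹ ∈ Subgroup.center G := fun g _ a ha =>
    (inferInstance : (Subgroup.center G).Normal).conj_mem a ha g
  have htrivA : ∀ g ∈ R0, ∀ m ∈ A, g * m * g⁻¹ * m⁻¹ ∈ Subgroup.center G := by
    intro g hg m hm
    obtain ⟨y, hy, z, hz, rfl⟩ := (hmemA m).mp hm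
    have h1 := ((hmemR0 g).mp hg).2 y hy
    have h2 : g * (y * z) = (y * z) * g := by
      rw [← mul_assoc, ← h1, mul_assoc, cen_comm hz g, mul_assoc]
    rw [h2, mul_inv_cancel_right, mul_inv_cancel]
    exact Subgroup.one_mem _
  have hK3 : ⁅⁅R1, R1⁆, ⁅R1, R1⁆⁆ ≤ Tr R M (Subgroup.center G) hZR := by
    rw [Subgroup.commutator_le]
    intro g hg h hh
    have hg1 := hK1 hg
    have hh1 := hK1 hh
    refine ⟨?_, comm_triv (fun a ha b hb => hMab a (hAM ha) b (hAM hb)) hg1.2 hh1.2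
      (htrivA g (hK2 hg)) (htrivA h (hK2 hh))⟩
    rw [commutatorElement_def]
    exact R.mul_mem (R.mul_mem (R.mul_mem hg1.1 hh1.1) (R.inv_mem hg1.1)) (R.inv_mem hh1.1)
  have htop1 := map_commutator_eq_top hT hR1T hR1T
  have htop2 := map_top_mono hK3 (map_commutator_eq_top hT htop1 htop1)
  apply hT
  have h8 : ∀ t : T, t = 1 := by
    intro t
    have ht : t ∈ (Tr R M (Subgroup.center G) hZR).map φ := by
      rw [htop2]; exact Subgroup.mem_top t
    obtain ⟨g, hg, rfl⟩ := ht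
    exact hC g hg.2
  intro a b
  rw [h8 a, h8 b]

end cent

section W

variable {G : Type u} [Group G]

/-- The commutator pairing `M → (D → Z)`. -/
def cfun (M D : Subgroup G) (h : ∀ d ∈ D, ∀ b ∈ M, ⁅d, b⁆ ∈ Subgroup.center G) :
    M →* (D → Subgroup.center G) where
  toFun x d := ⟨⁅(d : G), (x : G)⁆, h d d.2 x x.2⟩
  map_one' := by
    funext d
    apply Subtype.ext
    simp
  map_mul' x y := by
    funext d
    apply Subtype.ext
    exact cmul_right (h d d.2 y y.2)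

theorem exists_W [Finite G] (M : Subgroup G) [M.Normal] (D R : Subgroup G)
    (h : ∀ d ∈ D, ∀ b ∈ M, ⁅d, b⁆ ∈ Subgroup.center G)
    (hRD : ∀ g ∈ R, ∀ d ∈ D, g⁻¹ * d * g ∈ D) :
    ∃ (W : Type u) (_ : AddCommGroup W) (_ : Finite W) (_ : DistribMulAction R W) (wt : M → W),
      Function.Surjective wt ∧
      (∀ (g : R) (x y : M), (y : G) = (g : G) * x * (g : G)⁻¹ → g • wt x = wt y) ∧
      (∀ x y : M, wt x = wt y ↔ ∀ d ∈ D, ⁅d, (x : G)⁆ = ⁅d, (y : G)⁆) := by
  let W := Additive (cfun M D h).range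
  let instA : AddCommGroup W :=
    { (inferInstanceAs (AddGroup (Additive (cfun M D h).range)) : AddGroup W) with
      add_comm := by
        intro f k
        apply Additive.toMul.injective
        apply Subtype.ext
        funext d
        apply Subtype.ext
        change (((Additive.toMul f).1 d : G)) * ((Additive.toMul k).1 d : G) =
          (((Additive.toMul k).1 d : G)) * ((Additive.toMul f).1 d : G)
        exact cen_comm ((Additive.toMul k).1 d).2 _ }
  have hact : ∀ (g : R) (f : (cfun M D h).range),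
      (fun d : D => f.1 ⟨(g : G)⁻¹ * d * g, hRD g g.2 d d.2⟩) ∈ (cfun M D h).range := by
    rintro g ⟨_, x, rfl⟩
    refine ⟨⟨(g : G) * x * (g : G)⁻¹, (inferInstance : M.Normal).conj_mem x x.2 g⟩, ?_⟩
    funext d
    apply Subtype.ext
    change ⁅(d : G), (g : G) * x * (g : G)⁻¹⁆ = ⁅(g : G)⁻¹ * d * g, (x : G)⁆
    have h1 : ⁅(d : G), (g : G) * x * (g : G)⁻¹⁆ =
        g * ⁅(g : G)⁻¹ * d * g, (x : G)⁆ * (g : G)⁻¹ := by
      simp only [commutatorElement_def]; group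
    rw [h1, cen_comm (h _ (hRD g g.2 d d.2) x x.2) g, mul_inv_cancel_right]
  let act : R → W → W := fun g f => Additive.ofMul
    ⟨fun d : D => (Additive.toMul f).1 ⟨(g : G)⁻¹ * d * g, hRD g g.2 d d.2⟩,
      hact g (Additive.toMul f)⟩
  let inst : DistribMulAction R W :=
    { smul := act
      one_smul := by
        intro f
        change act 1 f = f
        apply Additive.toMul.injective
        apply Subtype.ext
        funext d
        change (Additive.toMul f).1 ⟨((1 : R) : G)⁻¹ * d * ((1 : R) : G), _⟩ =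
          (Additive.toMul f).1 d
        apply Subtype.ext
        simp
      mul_smul := by
        intro g k f
        change act (g * k) f = act g (act k f)
        apply Additive.toMul.injective
        apply Subtype.ext
        funext d
        change (Additive.toMul f).1 ⟨((g * k : R) : G)⁻¹ * d * ((g * k : R) : G), _⟩ =
          (Additive.toMul f).1 ⟨(k : G)⁻¹ * ((g : G)⁻¹ * d * (g : G)) * (k : G), _⟩
        apply Subtype.ext
        simp only [Subgroup.coe_mul]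
        group
      smul_zero := by
        intro g
        rfl
      smul_add := by
        intro g f k
        rfl }
  refine ⟨W, instA, ?_, inst, fun x => Additive.ofMul ⟨cfun M D h x, x, rfl⟩, ?_, ?_, ?_⟩
  · change Finite (cfun M D h).range
    infer_instance
  · intro w
    obtain ⟨x, hx⟩ := (Additive.toMul w).2
    refine ⟨x, ?_⟩
    apply Additive.toMul.injective
    apply Subtype.ext
    exact hx
  · intro g x y hy
    apply Additive.toMul.injective
    apply Subtype.ext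
    funext d
    apply Subtype.ext
    change ⁅(g : G)⁻¹ * d * g, (x : G)⁆ = ⁅(d : G), (y : G)⁆
    have h1 : ⁅(d : G), (y : G)⁆ = g * ⁅(g : G)⁻¹ * d * g, (x : G)⁆ * (g : G)⁻¹ := by
      rw [hy]
      simp only [commutatorElement_def]; group
    rw [h1, cen_comm (h _ (hRD g g.2 d d.2) x x.2) g, mul_inv_cancel_right]
  · intro x y
    constructor
    · intro he d hd
      have h1 := congrArg (fun w => ((Additive.toMul w).1 ⟨d, hd⟩ : G)) he
      exact h1
    · intro he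
      apply Additive.toMul.injective
      apply Subtype.ext
      funext d
      apply Subtype.ext
      exact he d d.2

end W

section perm2

variable {G : Type u} [Group G]

/-- If every element of `J` fixes or swaps `w1, w2`, commutators fix both. -/
theorem comm_fix {R : Type u} [Group R] {W : Type u} [MulAction R W] {w1 w2 : W} {g h : R}
    (hg : (g • w1 = w1 ∧ g • w2 = w2) ∨ (g • w1 = w2 ∧ g • w2 = w1))
    (hh : (h • w1 = w1 ∧ h • w2 = w2) ∨ (h • w1 = w2 ∧ h • w2 = w1)) :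
    ⁅g, h⁆ • w1 = w1 ∧ ⁅g, h⁆ • w2 = w2 := by
  rw [commutatorElement_def]
  simp only [mul_smul]
  rcases hg with ⟨a1, a2⟩ | ⟨a1, a2⟩ <;> rcases hh with ⟨b1, b2⟩ | ⟨b1, b2⟩ <;>
  · have a1' := inv_smul_eq_iff.mpr a1.symm
    have a2' := inv_smul_eq_iff.mpr a2.symm
    have b1' := inv_smul_eq_iff.mpr b1.symm
    have b2' := inv_smul_eq_iff.mpr b2.symm
    constructor <;> simp only [a1, a2, b1, b2, a1', a2', b1', b2']

end perm2

section zero

variable {G : Type u} [Group G]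

theorem exists_prime [Finite G] (M : Subgroup G) [M.Normal] (hZM : Subgroup.center G ≤ M)
    (hMmin : ∀ K : Subgroup G, K.Normal → Subgroup.center G ≤ K → K ≤ M →
      K = Subgroup.center G ∨ K = M)
    (hMab : ∀ a ∈ M, ∀ b ∈ M, ⁅a, b⁆ ∈ Subgroup.center G)
    (hMne : ¬ ∀ a ∈ M, ∀ b ∈ M, a * b = b * a) :
    ∃ r : ℕ, r.Prime ∧ (∀ m ∈ M, m ^ r ∈ Subgroup.center G) ∧
      ∃ ζ ∈ Subgroup.center G, ζ ^ r = 1 ∧ ζ ≠ 1 := by
  push Not at hMne
  obtain ⟨a, ha, b, hb, hab⟩ := hMne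
  have haZ : a ∉ Subgroup.center G := fun h => hab (cen_comm h b).symm
  have hmk : ∀ x : G, ∀ k : ℕ, x ^ k ∈ Subgroup.center G ↔
      ((x : G ⧸ Subgroup.center G)) ^ k = 1 := by
    intro x k
    rw [← QuotientGroup.mk_pow, QuotientGroup.eq_one_iff]
  set n := orderOf (a : G ⧸ Subgroup.center G) with hn
  have hn1 : n ≠ 1 := by
    intro h
    rw [hn, orderOf_eq_one_iff, QuotientGroup.eq_one_iff] at h
    exact haZ h
  have hn0 : 0 < n := orderOf_pos _
  set r := n.minFac with hr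
  have hrp : r.Prime := Nat.minFac_prime hn1
  obtain ⟨k, hk⟩ := Nat.minFac_dvd n
  have hk0 : 0 < k := by
    rcases Nat.eq_zero_or_pos k with h | h
    · rw [h, mul_zero] at hk; omega
    · exact h
  have hm1 : a ^ k ∉ Subgroup.center G := by
    intro h
    rw [hmk] at h
    have h1 := Nat.le_of_dvd hk0 (orderOf_dvd_of_pow_eq_one h)
    rw [← hn, hk] at h1
    have h2 : 2 ≤ n.minFac := hrp.two_le
    nlinarith
  have hm1r : (a ^ k) ^ r ∈ Subgroup.center G := by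
    rw [← pow_mul, mul_comm, hr, ← hk, hmk, hn]
    exact pow_orderOf_eq_one _
  let K : Subgroup G :=
    { carrier := {m | m ∈ M ∧ m ^ r ∈ Subgroup.center G}
      one_mem' := ⟨M.one_mem, by rw [one_pow]; exact Subgroup.one_mem _⟩
      mul_mem' := by
        rintro x y ⟨hx, hx'⟩ ⟨hy, hy'⟩
        refine ⟨M.mul_mem hx hy, ?_⟩
        rw [mul_pow_two (hMab y hy x hx)]
        exact Subgroup.mul_mem _ (Subgroup.mul_mem _ hx' hy')
          (Subgroup.pow_mem _ (hMab y hy x hx) _)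
      inv_mem' := by
        rintro x ⟨hx, hx'⟩
        refine ⟨M.inv_mem hx, ?_⟩
        rw [inv_pow]
        exact Subgroup.inv_mem _ hx' }
  have hKn : K.Normal := by
    constructor
    rintro x ⟨hx, hx'⟩ g
    refine ⟨(inferInstance : M.Normal).conj_mem x hx g, ?_⟩
    rw [conj_pow]
    exact (inferInstance : (Subgroup.center G).Normal).conj_mem _ hx' g
  have hKM : K = M := by
    rcases hMmin K hKn (fun z hz => ⟨hZM hz, Subgroup.pow_mem _ hz r⟩) (fun x hx => hx.1)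
      with h | h
    · exfalso
      apply hm1
      rw [← h]
      exact ⟨M.pow_mem ha k, hm1r⟩
    · exact h
  have hMr : ∀ m ∈ M, m ^ r ∈ Subgroup.center G := by
    intro m hm
    have : m ∈ K := by rw [hKM]; exact hm
    exact this.2
  refine ⟨r, hrp, hMr, ⁅a, b⁆, hMab a ha b hb, ?_, ?_⟩
  · rw [← cpow_left (hMab a ha b hb)]
    exact commutatorElement_eq_one_iff_mul_comm.mpr (cen_comm (hMr a ha) b).symm
  · intro h
    exact hab (commutatorElement_eq_one_iff_mul_comm.mp h)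

end zero

end Pool.Agent.TH527.J82

namespace Pool.Agent.TH82.BS

open scoped commutatorElement
open Pool.Agent.TH527.J82

universe u

theorem sympl_lemma {T : Type u} [Group T] [IsSimpleGroup T] (hT : ¬ ∀ a b : T, a * b = b * a)
    {G : Type u} [Group G] [Finite G] (φ : G →* T)
    {V : Type u} [AddCommGroup V] [Finite V] [DistribMulAction G V] [Nontrivial V]
    (hfaith : ∀ g : G, (∀ v : V, g • v = v) → g = 1)
    (hZcyc : IsCyclic (Subgroup.center G))
    (hZfree : ∀ z ∈ Subgroup.center G, ∀ v : V, v ≠ 0 → z • v = v → z = 1)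
    (M : Subgroup G) [M.Normal] (hZM : Subgroup.center G ≤ M)
    (hMmin : ∀ K : Subgroup G, K.Normal → Subgroup.center G ≤ K → K ≤ M →
      K = Subgroup.center G ∨ K = M)
    (hMab : ∀ a ∈ M, ∀ b ∈ M, a * b * a⁻¹ * b⁻¹ ∈ Subgroup.center G)
    (hMcen : ∀ a ∈ M, (∀ b ∈ M, a * b = b * a) → a ∈ Subgroup.center G)
    (hMne : ¬ ∀ a ∈ M, ∀ b ∈ M, a * b = b * a)
    (hC : ∀ g : G, (∀ m ∈ M, g * m * g⁻¹ * m⁻¹ ∈ Subgroup.center G) → φ g = 1)
    (IH : ∀ (H : Subgroup G) (W : Type u) [AddCommGroup W] [Finite W] [DistribMulAction H W],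
      Nat.card W < Nat.card V → H.map φ = ⊤ →
      (∀ h : H, (∀ w : W, h • w = w) → φ h = 1) → LinConcl (φ.comp H.subtype) W) :
    LinConcl φ V := by
  classical
  by_contra hcon
  have hbad : ∀ v₁ v₂ : V,
      (MulAction.stabilizer G v₁ ⊓ MulAction.stabilizer G v₂).map φ = ⊤ := by
    intro v₁ v₂
    by_contra h
    exact hcon ⟨v₁, v₂, h⟩
  have hMab' : ∀ a ∈ M, ∀ b ∈ M, ⁅a, b⁆ ∈ Subgroup.center G := fun a ha b hb => by
    rw [commutatorElement_def]; exact hMab a ha b hb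
  obtain ⟨r, hrp, hMr, ζ, hζ, hζr, hζ1⟩ := exists_prime M hZM hMmin hMab' hMne
  have hfact : Fact r.Prime := ⟨hrp⟩
  have hne0 : Nonempty {v : V // v ≠ 0} := by
    obtain ⟨v, hv⟩ := exists_ne (0 : V)
    exact ⟨⟨v, hv⟩⟩
  obtain ⟨⟨v1, hv1⟩, hmax'⟩ := Finite.exists_max
    (fun v : {v : V // v ≠ 0} => Nat.card (M ⊓ MulAction.stabilizer G v.1 : Subgroup G))
  have hmax : ∀ u : V, u ≠ 0 → Nat.card (M ⊓ MulAction.stabilizer G u : Subgroup G) ≤
      Nat.card (M ⊓ MulAction.stabilizer G v1 : Subgroup G) := fun u hu => hmax' ⟨u, hu⟩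
  have hR : (MulAction.stabilizer G v1).map φ = ⊤ := by
    have := hbad v1 v1
    rwa [inf_idem] at this
  have hcent := cent_step hT φ hZcyc hZfree M hZM hMab hC hMr hζ hζr hζ1 hv1 hmax hR
  set R := MulAction.stabilizer G v1 with hRdef
  set D := M ⊓ R with hD
  have hRv : ∀ g ∈ R, g • v1 = v1 := fun g hg => hg
  have hRD' : ∀ g ∈ R, ∀ d ∈ D, g⁻¹ * d * g ∈ D := fun g hg d hd => by
    refine ⟨?_, R.mul_mem (R.mul_mem (R.inv_mem hg) hd.2) hg⟩
    have := (inferInstance : M.Normal).conj_mem d hd.1 g⁻¹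
    rwa [inv_inv] at this
  obtain ⟨W, instA, instF, instD, wt, hsurj, hwt, hwteq⟩ := exists_W M D R
    (fun d hd b hb => hMab' d hd.1 b hb) hRD'
  have hweight : ∀ x : M, ∀ d ∈ D, d • ((x : G) • v1) = ⁅d, (x : G)⁆ • ((x : G) • v1) := by
    intro x d hd
    have h1 : d • v1 = v1 := hRv d hd.2
    have h2 : d * (x : G) = ⁅d, (x : G)⁆ * x * d := by
      simp only [commutatorElement_def]; group
    rw [smul_smul, h2, mul_smul, h1, mul_smul]
  have hxne : ∀ x : M, (x : G) • v1 ≠ 0 := fun x => by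
    rw [smul_ne_zero_iff_ne]
    exact hv1
  -- `|W| < |V|`
  have hcard : Nat.card W < Nat.card V := by
    let σ := Function.surjInv hsurj
    have hσ : ∀ w, wt (σ w) = w := Function.surjInv_eq hsurj
    have hinj : Function.Injective (fun w => (⟨((σ w : M) : G) • v1, hxne _⟩ : {v : V // v ≠ 0})) := by
      intro w w' h
      have h1 : ((σ w : M) : G) • v1 = ((σ w' : M) : G) • v1 := congrArg Subtype.val h
      rw [← hσ w, ← hσ w', hwteq]
      intro d hd
      have h2 := hweight (σ w) d hd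
      have h3 := hweight (σ w') d hd
      rw [h1] at h2
      rw [h2] at h3
      have h4 : ((⁅d, ((σ w' : M) : G)⁆)⁻¹ * ⁅d, ((σ w : M) : G)⁆) • (((σ w' : M) : G) • v1) =
          (((σ w' : M) : G) • v1) := by
        rw [mul_smul, h3, inv_smul_smul]
      have h5 := hZfree _ (Subgroup.mul_mem _ (Subgroup.inv_mem _ (hMab' d hd.1 _ (σ w').2))
        (hMab' d hd.1 _ (σ w).2)) _ (hxne (σ w')) h4
      exact (inv_mul_eq_one.mp h5).symm
    have h6 := Nat.card_le_card_of_injective _ hinj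
    have h7 : Nat.card {v : V // v ≠ 0} < Nat.card V :=
      Finite.card_subtype_lt (x := (0 : V)) (by simp)
    exact lt_of_le_of_lt h6 h7
  -- faithfulness modulo `ker φ`
  have hfaithW : ∀ h : R, (∀ w : W, h • w = w) → φ h = 1 := by
    intro g hg
    apply hcent g g.2
    intro d hd
    have h1 : ∀ x ∈ M, ⁅(g : G)⁻¹ * d * g, x⁆ = ⁅d, x⁆ := by
      intro x hx
      have hy : (g : G) * x * (g : G)⁻¹ ∈ M := (inferInstance : M.Normal).conj_mem x hx g
      have h2 := hwt g ⟨x, hx⟩ ⟨_, hy⟩ rfl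
      rw [hg] at h2
      have h3 := (hwteq _ _).mp h2 d hd
      have h4 : ⁅d, (g : G) * x * (g : G)⁻¹⁆ =
          g * ⁅(g : G)⁻¹ * d * g, x⁆ * (g : G)⁻¹ := by
        simp only [commutatorElement_def]; group
      rw [cen_comm (hMab' _ (hRD' g g.2 d hd).1 x hx) g, mul_inv_cancel_right] at h4
      rw [← h4]
      exact h3.symm
    set e := (g : G)⁻¹ * d * g with he
    have heD : e ∈ D := hRD' g g.2 d hd
    have h5 : d⁻¹ * e ∈ Subgroup.center G := by
      apply hMcen _ (M.mul_mem (M.inv_mem hd.1) heD.1)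
      intro x hx
      rw [← commutatorElement_eq_one_iff_mul_comm, cmul_left (hMab' e heD.1 x hx), h1 x hx,
        ← cmul_left (hMab' d hd.1 x hx), inv_mul_cancel]
      simp
    have h6 : d⁻¹ * e = 1 := hZfree _ h5 v1 hv1 (hRv _ (R.mul_mem (R.inv_mem hd.2) heD.2))
    have h7 : e = d := (inv_mul_eq_one.mp h6).symm
    rw [he] at h7
    calc (g : G) * d = g * ((g : G)⁻¹ * d * g) := by rw [h7]
      _ = d * g := by group
  obtain ⟨w1, w2, hw⟩ := IH R W hcard hR hfaithW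
  obtain ⟨x1, rfl⟩ := hsurj w1
  obtain ⟨x2, rfl⟩ := hsurj w2
  have hconj : ∀ g ∈ R, ∀ x : M, g • ((x : G) • v1) = (g * x * g⁻¹) • v1 := by
    intro g hg x
    have h1 : g * (x : G) = (g * x * g⁻¹) * g := by group
    rw [smul_smul, h1, mul_smul, hRv g hg]
    congr 1
    group
  -- the two weights are permuted
  have hJ : ∃ v2 : V, ∀ g : R, (g : G) • v2 = v2 →
      (g • wt x1 = wt x1 ∧ g • wt x2 = wt x2) ∨ (g • wt x1 = wt x2 ∧ g • wt x2 = wt x1) := by
    by_cases h12 : wt x1 = wt x2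
    · refine ⟨(x1 : G) • v1, ?_⟩
      intro g hg
      have hy : (g : G) * x1 * (g : G)⁻¹ ∈ M := (inferInstance : M.Normal).conj_mem x1 x1.2 g
      have h1 := hwt g x1 ⟨_, hy⟩ rfl
      have h2 : wt ⟨_, hy⟩ = wt x1 := by
        rw [hwteq]
        intro d hd
        have h3 := hweight ⟨_, hy⟩ d hd
        have h4 := hweight x1 d hd
        have h5 : ((⟨_, hy⟩ : M) : G) • v1 = (x1 : G) • v1 := by
          rw [← hconj g g.2 x1, hg]
        rw [h5, h4] at h3
        have h6 : ((⁅d, (x1 : G)⁆)⁻¹ * ⁅d, ((⟨_, hy⟩ : M) : G)⁆) • ((x1 : G) • v1) =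
            ((x1 : G) • v1) := by
          rw [mul_smul, ← h3, inv_smul_smul]
        have h7 := hZfree _ (Subgroup.mul_mem _ (Subgroup.inv_mem _ (hMab' d hd.1 _ x1.2))
          (hMab' d hd.1 _ hy)) _ (hxne x1) h6
        exact (inv_mul_eq_one.mp h7).symm
      left
      rw [← h12, h1, h2]
      exact ⟨rfl, rfl⟩
    · refine ⟨(x1 : G) • v1 + (x2 : G) • v1, ?_⟩
      have hgen : ∀ p q s t : M, (p : G) • v1 + (q : G) • v1 = (s : G) • v1 + (t : G) • v1 →
          wt p ≠ wt q → wt p = wt s ∨ wt p = wt t := by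
        intro p q s t hsum hpq
        by_contra hno
        push Not at hno
        obtain ⟨hps, hpt⟩ := hno
        have hnn : ∀ y : M, wt p ≠ wt y → ∃ d ∈ D, ⁅d, (y : G)⁆ ≠ ⁅d, (p : G)⁆ := by
          intro y hy
          by_contra hcon
          push Not at hcon
          apply hy
          rw [hwteq]
          intro d hd
          exact (hcon d hd).symm
        apply hxne p
        refine weight_lemma hZfree D (Finset.univ : Finset (Fin 3)) (fun d => ⁅d, (p : G)⁆)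
          (fun d hd => hMab' d hd.1 _ p.2)
          ![fun d => ⁅d, (s : G)⁆, fun d => ⁅d, (t : G)⁆, fun d => ⁅d, (q : G)⁆]
          ((p : G) • v1) ![(s : G) • v1, (t : G) • v1, -((q : G) • v1)] ?_ (hweight p) ?_ ?_ ?_
        · intro i _ d hd
          fin_cases i
          · exact hMab' d hd.1 _ s.2
          · exact hMab' d hd.1 _ t.2
          · exact hMab' d hd.1 _ q.2
        · intro i _ d hd
          fin_cases i
          · exact hweight s d hd
          · exact hweight t d hd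
          · change d • -((q : G) • v1) = ⁅d, (q : G)⁆ • -((q : G) • v1)
            rw [smul_neg, smul_neg, hweight q d hd]
        · intro i _
          fin_cases i
          · exact hnn s hps
          · exact hnn t hpt
          · exact hnn q hpq
        · rw [Fin.sum_univ_three]
          change (p : G) • v1 = (s : G) • v1 + (t : G) • v1 + -((q : G) • v1)
          rw [← hsum]
          abel
      intro g hg
      have hy1 : (g : G) * x1 * (g : G)⁻¹ ∈ M := (inferInstance : M.Normal).conj_mem x1 x1.2 g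
      have hy2 : (g : G) * x2 * (g : G)⁻¹ ∈ M := (inferInstance : M.Normal).conj_mem x2 x2.2 g
      have e1 := hwt g x1 ⟨_, hy1⟩ rfl
      have e2 := hwt g x2 ⟨_, hy2⟩ rfl
      rw [smul_add, hconj g g.2 x1, hconj g g.2 x2] at hg
      have k1 := hgen x1 x2 ⟨_, hy1⟩ ⟨_, hy2⟩ hg.symm h12
      have k2 := hgen x2 x1 ⟨_, hy1⟩ ⟨_, hy2⟩ (by rw [add_comm]; exact hg.symm) (Ne.symm h12)
      rw [← e1, ← e2] at k1 k2
      rcases k1 with k1 | k1
      · rcases k2 with k2 | k2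
        · exact absurd (k1.trans k2.symm) h12
        · exact Or.inl ⟨k1.symm, k2.symm⟩
      · rcases k2 with k2 | k2
        · exact Or.inr ⟨k2.symm, k1.symm⟩
        · exact absurd (k1.trans k2.symm) h12
  obtain ⟨v2, hv2⟩ := hJ
  apply hw
  have hJtop := hbad v1 v2
  have hle : ⁅R ⊓ MulAction.stabilizer G v2, R ⊓ MulAction.stabilizer G v2⁆ ≤
      (MulAction.stabilizer R (wt x1) ⊓ MulAction.stabilizer R (wt x2)).map R.subtype := by
    rw [Subgroup.commutator_le]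
    rintro g ⟨hg, hg'⟩ h ⟨hh, hh'⟩
    have h1 := comm_fix (hv2 ⟨g, hg⟩ hg') (hv2 ⟨h, hh⟩ hh')
    exact ⟨⁅(⟨g, hg⟩ : R), (⟨h, hh⟩ : R)⁆, ⟨h1.1, h1.2⟩, rfl⟩
  have hfin := map_eq_top_of_commutator_le hT hJtop hle
  rw [Subgroup.map_map] at hfin
  exact hfin

end Pool.Agent.TH82.BS
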